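import Pool.Agent.Y504.CO.Gen

/-!
# Converse of the `Ω`-stability theorem: diffeomorphisms with countable nonperiodic recurrence

Let `N` be a closed smooth manifold, `1 ≤ r ≤ ∞` and `F ∈ Diff^r(N)`.

1. If `F` is `Ω`-stable and at most countably many of its recurrent points are not periodic (for
   instance if all recurrent points are periodic, or if `Ω(F)` is countable), then `Ω(F)` is finite
   and consists of hyperbolic periodic points (Axiom A), and `F` has no cycles.
2. The same holds without `Ω`-stability, if every map near `F` has at most countably many nonperiodic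
   recurrent points and the periodic points of `F` are hyperbolic.
3. If `F` is `Ω`-stable, then every nonempty relatively open subset of `Ω(F) ∖ closure(Per(F))` is
   uncountable. So periodic points are dense in `Ω(F)` if this difference is countable, and isolated
   points of `Ω(F)` are periodic.

The proof uses no closing lemma: minimal limits of almost closed orbit segments of `F` itself lead to
a cycle of hyperbolic periodic orbits, a cycle leads after small perturbations to a transverse
homoclinic orbit, and this to a nonperiodic recurrent point of a map conjugate to `F` on `Ω`.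

Project CO. Proof plan: helper504; Lean: helpers 3, 38, 67, 96, 117, 284, 286, 306, 329, 333, 417,
504, 600, 614, 739, 810, 832, 863, 921, 929, 948, 987 (`Pool/Agent/Y*/CO`). Definitions of `DiffM`,
`strongTop`, `Omega`, `OmegaStable`, `Per`, `FiniteNoCycle`: `Pool/Agent/H718R2/G0.lean`,
`Pool/Agent/TH80/OMS/Defs.lean`, `SymDefs.lean`, `CycDefs.lean`.
-/

set_option autoImplicit false

open scoped Manifold ContDiff Topology

universe u

namespace Pool.Agent.Results.MP_814647_an.CountableRecurrence

open Pool.Agent.H718R2.G Pool.Agent.TH80.OMS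

/-- The recurrent points of `F`: every neighbourhood of `x` contains some `F^k(x)`, `k ≥ 1`. -/
def Rec {N : Type u} [TopologicalSpace N] (F : N → N) : Set N :=
  {x | ∀ W ∈ 𝓝 x, ∃ k : ℕ, 1 ≤ k ∧ F^[k] x ∈ W}

/-- `p` is a hyperbolic periodic point of `F`: `F^m(p) = p` for some `m ≥ 1`, and for every such `m`
and every chart `ψ` at `p` no eigenvalue of the derivative `D` of `F^m` at `p` has modulus one. -/
def IsHyperbolicPer (n : ℕ) {N : Type u} [TopologicalSpace N] [ChartedSpace (V n) N]
    (F : N → N) (p : N) : Prop :=
  p ∈ Per F ∧ ∀ m : ℕ, 1 ≤ m → F^[m] p = p → ∀ ψ ∈ IsManifold.maximalAtlas (𝓡 n) ∞ N,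
    p ∈ ψ.source → ∃ D : V n →L[ℝ] V n, HasFDerivAt (fun v => ψ (F^[m] (ψ.symm v))) D (ψ p) ∧
      ∀ μ : ℂ, ((LinearMap.charpoly (D : V n →ₗ[ℝ] V n)).map (algebraMap ℝ ℂ)).IsRoot μ → ‖μ‖ ≠ 1

/-- At most countably many recurrent points of `F` are not periodic. -/
def CountableRec {N : Type u} [TopologicalSpace N] (F : N → N) : Prop := (Rec F \ Per F).Countable

/-- `F` is in `U₃`, with finite `Ω(F)`: `Ω(F)` is finite, consists of hyperbolic periodic points, and
there are no cycles. -/
def FiniteU3 (n : ℕ) {N : Type u} [TopologicalSpace N] [ChartedSpace (V n) N] {r : ℕ∞}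
    (F : DiffM n N r) : Prop :=
  FiniteNoCycle F ∧ ∀ p ∈ Omega F, IsHyperbolicPer n F p

/-- All `G` in some neighbourhood of `F` in `Diff^r(N)` have at most countably many nonperiodic
recurrent points. -/
def RobustCountableRec (n : ℕ) (N : Type u) [TopologicalSpace N] [ChartedSpace (V n) N] (r : ℕ∞)
    (F : DiffM n N r) : Prop :=
  ∃ U : Set (DiffM n N r), IsOpen[strongTop n N r] U ∧ F ∈ U ∧ ∀ G ∈ U, CountableRec G

/-- Every nonempty relatively open subset of `Ω(F) ∖ closure(Per(F))` is uncountable. -/
def UncountableGaps {N : Type u} [TopologicalSpace N] (F : N → N) : Prop :=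
  ∀ O : Set N, IsOpen O → (O ∩ (Omega F \ closure (Per F))).Nonempty →
    ¬ (O ∩ (Omega F \ closure (Per F))).Countable

theorem result (n : ℕ) (N : Type u) [TopologicalSpace N] [T2Space N] [CompactSpace N]
    [ChartedSpace (V n) N] [IsManifold (𝓡 n) ∞ N] (r : ℕ∞) (hr : 1 ≤ r) (F : DiffM n N r) :
    (OmegaStable n N r F → CountableRec F → FiniteU3 n F) ∧
    (RobustCountableRec n N r F → (∀ p ∈ Per F, IsHyperbolicPer n F p) → FiniteU3 n F) ∧
    (OmegaStable n N r F → UncountableGaps F) := by
  refine ⟨fun h hR => Pool.Agent.Y504.CO.Gen.stable hr h hR, ?_,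
    fun h O hO hne => Pool.Agent.Y504.CO.Gen.stable_bad hr h O hO hne⟩
  rintro ⟨U, hU, hFU, hR⟩ hH
  exact Pool.Agent.Y504.CO.Gen.robust hr U hU hR hFU hH

end Pool.Agent.Results.MP_814647_an.CountableRecurrence
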