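import Pool.Agent.Y318.LF.Stab

set_option autoImplicit false

/-!
# `Ω`-stable diffeomorphisms preserving linear foliations: Axiom A without cycles

`PreservesFlag r f V`: `f` is a `C^r` diffeomorphism of `𝕋^d` isotopic to the identity which
preserves the foliations of `𝕋^d` by the translates of `V 1 ⊂ V 2 ⊂ … ⊂ V (d - 1)`, linear
subspaces of `ℝ^d` of dimensions `1, 2, …, d - 1` with arbitrary (irrational) slopes.
`FlagClassStable r f`: `f` is `Ω`-stable under perturbations inside the class of all such
diffeomorphisms (the flag may change); this is weaker than `Ω`-stability.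

Library: helper637 and team (rational case), helper728 (hyperbolicity); for this extension
helpers 318, 210, 301, 785, 925.
-/

namespace Pool.Agent.Results.MP_814647_an.LinearFlags

open Pool.Agent.H728R2.OS Pool.Agent.Y318.LF

/-- Let `f` be a `C^r` diffeomorphism of `𝕋^d`, `1 ≤ r ≤ ∞`, which is isotopic to the identity,
preserves a complete flag `V` of linear foliations and is `Ω`-stable, at least in the class of such
diffeomorphisms. Then all `V n` are rational (the foliations are by closed subtori), and `f`
satisfies Axiom A and has no cycles; the nonwandering set is finite and the chain recurrent set is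
hyperbolic. -/
theorem result (d : ℕ) (r : ℕ∞) (hr : 1 ≤ r) (f : Torus d ≃ₜ Torus d)
    (V : ℕ → Submodule ℝ (Fin d → ℝ)) (hf : PreservesFlag r f V)
    (hs : OmegaStable toTorus r f ∨ FlagClassStable r f) :
    (∀ n, IsRat (V n)) ∧ ChainHyp toTorus f ∧ AxiomA toTorus f ∧ NoCycle f ∧
      (Omega f).Finite :=
  stab Pool.Agent.Y210.LF.prim Pool.Agent.Y301.LF.t kill adapt hr hf
    (hs.elim classStable_of_omegaStable id)

end Pool.Agent.Results.MP_814647_an.LinearFlags
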