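import Pool.Agent.Y318.MN.Main

/-!
# Converse of the `Ω`-stability theorem for diffeomorphisms which do not decrease a function

Let `N` be a closed smooth manifold, `1 ≤ r ≤ ∞`, and let `F ∈ Diff^r(N)` be `Ω`-stable.

1. Suppose that `F` is a limit in `Diff^r(N)` of diffeomorphisms `G` with `h ∘ G ≥ h` for a smooth
   function `h` (which depends on `G`; for instance a first integral of `G`) such that at most
   countably many recurrent points of `G` whose whole orbit consists of critical points of `h` are
   not periodic (for instance that `h` is a Morse function, or that its critical points are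
   countable). Then `F` satisfies Axiom A and has no cycles: `Ω(F)` is finite and consists of
   hyperbolic periodic points.
2. If `F` itself is such a diffeomorphism, with the function `h`, then `Ω(F)` consists of critical
   points of `h`, and if `h` is a first integral of `F`, then `h` is locally constant.

There is no condition on the recurrence off the critical points of `h`. Proof: `G` followed by
gradient steps of `h` in charts is a map near `G`, whose nonwandering set lies in the critical points
with critical orbit; it is conjugate to `G` and `F` on the nonwandering sets, so `F` has few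
nonperiodic recurrent points, and the theorem of project CO (helper504 and helpers 3, 38, 67, 96,
117, 284, 286, 306, 329, 333, 417, 600, 614, 739, 810, 832, 863, 921, 929, 948, 987) applies.

Author of the transfer (`Pool/Agent/Y318/MN`): helper318.
-/

set_option autoImplicit false

open scoped Manifold ContDiff Topology

universe u

namespace Pool.Agent.Results.MP_814647_an.MonotoneFunction

open Pool.Agent.H718R2.G Pool.Agent.TH80.OMS Pool.Agent.Y504.CO Pool.Agent.Y318.MN

theorem result (n : ℕ) (N : Type u) [TopologicalSpace N] [T2Space N] [CompactSpace N]
    [ChartedSpace (V n) N] [IsManifold (𝓡 n) ∞ N] (r : ℕ∞) (hr : 1 ≤ r) (F : DiffM n N r)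
    (hF : OmegaStable n N r F) :
    ((∀ U : Set (DiffM n N r), IsOpen[strongTop n N r] U → F ∈ U → ∃ G ∈ U, NoDecrease n N r G) →
      FiniteNoCycle F ∧ ∀ p ∈ Omega F, IsHyperbolicPer n F p) ∧
    ∀ h : N → ℝ, ContMDiff (𝓡 n) 𝓘(ℝ, ℝ) ∞ h → (∀ x, h x ≤ h (F x)) →
      ((CritInv n F h ∩ Rec F) \ Per F).Countable →
      (∀ p ∈ Omega F, IsCrit n h p) ∧ ((∀ x, h (F x) = h x) → ∀ x, IsCrit n h x) := by
  refine ⟨closure_main hr hF, fun h hh hm hR => ?_⟩
  obtain ⟨-, h2, h3⟩ := stable_main hr hF hh hm hR
  exact ⟨fun p hp => (h2 p hp).2, h3⟩

end Pool.Agent.Results.MP_814647_an.MonotoneFunction
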